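import Pool.Agent.Helper69.MF.StB

/-!
# Project MF, module G8: rotational invariance
-/

set_option autoImplicit false

namespace Pool.Agent.Helper6.MF

open Set Topology Filter MeasureTheory
open Pool.Agent.Helper31.CY Pool.Agent.Helper69.MF

theorem pt0 (a b c : ℝ) : pt a b c 0 = a := rfl
theorem pt1 (a b c : ℝ) : pt a b c 1 = b := rfl
theorem pt2 (a b c : ℝ) : pt a b c 2 = c := rfl

theorem e3ext {x y : E3} (h0 : x 0 = y 0) (h1 : x 1 = y 1) (h2 : x 2 = y 2) : x = y := by
  ext i
  fin_cases i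
  · exact h0
  · exact h1
  · exact h2

theorem rot_zero (x : E3) : rot 0 x = x := by
  apply e3ext
  · simp [rot, pt0]
  · simp [rot, pt1]
  · simp [rot, pt2]

theorem rot_rot (s t : ℝ) (x : E3) : rot s (rot t x) = rot (s + t) x := by
  apply e3ext
  · simp only [rot, pt0, pt1, Real.cos_add, Real.sin_add]; ring
  · simp only [rot, pt0, pt1, Real.cos_add, Real.sin_add]; ring
  · simp only [rot, pt2]

theorem rad_rot (t : ℝ) (x : E3) : rad (rot t x) = rad x := by
  unfold rad
  congr 1
  simp only [rot, pt0, pt1]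
  have h := Real.sin_sq_add_cos_sq t
  linear_combination (x 0 ^ 2 + x 1 ^ 2) * h

theorem circ_rot (r h t : ℝ) (x : E3) : rot t x ∈ circ r h ↔ x ∈ circ r h := by
  have e : (rot t x) 0 ^ 2 + (rot t x) 1 ^ 2 = x 0 ^ 2 + x 1 ^ 2 := by
    simp only [rot, pt0, pt1]
    have h := Real.sin_sq_add_cos_sq t
    linear_combination (x 0 ^ 2 + x 1 ^ 2) * h
  change (rot t x) 0 ^ 2 + (rot t x) 1 ^ 2 = r ^ 2 ∧ (rot t x) 2 = h ↔ _
  rw [e]
  rfl

theorem rot_cont (x : E3) : Continuous (fun t => rot t x) := by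
  have h : (fun t => rot t x) = fun t : ℝ => (WithLp.toLp 2
      ![Real.cos t * x 0 - Real.sin t * x 1, Real.sin t * x 0 + Real.cos t * x 1, x 2] : E3) := rfl
  rw [h]
  refine (PiLp.continuous_toLp 2 _).comp ?_
  refine continuous_pi ?_
  intro i
  fin_cases i
  · exact (Real.continuous_cos.mul continuous_const).sub (Real.continuous_sin.mul continuous_const)
  · exact (Real.continuous_sin.mul continuous_const).add (Real.continuous_cos.mul continuous_const)
  · exact continuous_const

theorem hG8 : StG5 → StG6 → StG7 → StG8 := by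
  intro G5 G6 G7 r0 r1 h S hr0 hr1 hS hTN
  have hTT : TT r0 r1 h S := by
    intro q hq hqΓ hreg hrad
    rcases hTN q hq hqΓ hreg hrad with h1 | h1
    · exact h1
    · exact absurd ⟨hq, hqΓ, hreg, hrad, h1⟩ (G5 r0 r1 h S hr0 hr1 hS hTN q)
  intro θ x hx
  by_cases hΓ : x ∈ circ r0 0 ∪ circ r1 h
  · apply hS.sub
    rcases hΓ with h1 | h1
    · exact Or.inl ((circ_rot _ _ _ _).2 h1)
    · exact Or.inr ((circ_rot _ _ _ _).2 h1)
  · by_cases hrad : rad x = 0
    · have h0 : x 0 ^ 2 + x 1 ^ 2 = 0 := by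
        have := Real.sqrt_eq_zero (by positivity : (0 : ℝ) ≤ x 0 ^ 2 + x 1 ^ 2)
        exact this.1 hrad
      have hx0 : x 0 = 0 := by nlinarith [sq_nonneg (x 0), sq_nonneg (x 1)]
      have hx1 : x 1 = 0 := by nlinarith [sq_nonneg (x 0), sq_nonneg (x 1)]
      have : rot θ x = x := by
        apply e3ext
        · simp [rot, pt0, hx0, hx1]
        · simp [rot, pt1, hx0, hx1]
        · simp [rot, pt2]
      rw [this]
      exact hx
    · have hpos : 0 < rad x := lt_of_le_of_ne (Real.sqrt_nonneg _) (Ne.symm hrad)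
      have hcl : IsClosed {t : ℝ | rot t x ∈ S} := hS.cpt.isClosed.preimage (rot_cont x)
      have hop : IsOpen {t : ℝ | rot t x ∈ S} := by
        rw [Metric.isOpen_iff]
        intro t ht
        have hyΓ : rot t x ∉ circ r0 0 ∪ circ r1 h := by
          rintro (h1 | h1)
          · exact hΓ (Or.inl ((circ_rot _ _ _ _).1 h1))
          · exact hΓ (Or.inr ((circ_rot _ _ _ _).1 h1))
        have hyr : 0 < rad (rot t x) := by rw [rad_rot]; exact hpos
        have hmove : ∃ ε : ℝ, 0 < ε ∧ ∀ s : ℝ, |s| < ε → rot s (rot t x) ∈ S := by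
          obtain ⟨hT, hY⟩ := G7 r0 r1 h S hS hTT (rot t x) ht hyΓ hyr
          rcases hS.int (rot t x) ht hyΓ with h1 | h1 | h1
          · exact G6 r0 r1 h S hTT (rot t x) ht hyΓ hyr h1
          · exact hY h1
          · exact absurd h1 hT
        obtain ⟨ε, hε, hm⟩ := hmove
        refine ⟨ε, hε, ?_⟩
        intro s hs
        rw [Metric.mem_ball, Real.dist_eq] at hs
        have := hm (s - t) hs
        rw [rot_rot, sub_add_cancel] at this
        exact this
      have huniv : {t : ℝ | rot t x ∈ S} = Set.univ := by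
        refine IsClopen.eq_univ ⟨hcl, hop⟩ ⟨0, ?_⟩
        change rot 0 x ∈ S
        rw [rot_zero]
        exact hx
      have : θ ∈ {t : ℝ | rot t x ∈ S} := by rw [huniv]; trivial
      exact this

end Pool.Agent.Helper6.MF
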